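import Pool.Agent.H32.FlowDefs

set_option autoImplicit false

namespace Pool.Agent.Results.MP_eb4cdf_pr.NotBowl

open MeasureTheory Pool.Agent.H32.Flow Finset
open scoped NNReal

noncomputable section

/-- Makespan `D n m` with unlimited buffers: works `X`, speeds `s`. -/
def span {n m : ℕ} (s : Fin m → ℝ) (X : Fin n → Fin m → ℝ≥0) : ℝ :=
  comp (fun i j => if h : i < n ∧ j < m then (X ⟨i, h.1⟩ ⟨j, h.2⟩ : ℝ) / s ⟨j, h.2⟩ else 0) n m

/-- Expected makespan `F(s)` for i.i.d. works of law `μ`. -/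
def expSpan (μ : Measure ℝ≥0) (n : ℕ) {m : ℕ} (s : Fin m → ℝ) : ℝ :=
  ∫ X, span s X ∂(Measure.pi fun _ : Fin n => Measure.pi fun _ : Fin m => μ)

/-- Speed allocations: positive speeds of total one. -/
def Alloc {m : ℕ} (s : Fin m → ℝ) : Prop := (∀ j, 0 < s j) ∧ ∑ j, s j = 1

/-- Bowl-shaped: symmetric, and nondecreasing on the first `⌈m/2⌉` stations. -/
def Bowl {m : ℕ} (s : Fin m → ℝ) : Prop :=
  (∀ j, s j = s j.rev) ∧ ∀ i j : Fin m, i ≤ j → (j : ℕ) < (m + 1) / 2 → s i ≤ s j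

end

def al (a c d b : Fin 8) : ℤ :=
  if a ≤ c ∧ d ≤ b then 0
  else if (d : ℤ) - b < a - c ∨ ((d : ℤ) - b = a - c ∧ a ≤ d) then 50 + a else 50 + d

def be (a c d b : Fin 8) : ℤ :=
  if a ≤ c ∧ d ≤ b then 0
  else if (d : ℤ) - b < a - c ∨ ((d : ℤ) - b = a - c ∧ a ≤ d) then -(50 + c) else -(50 + b)

lemma cases3 (a c d b : Fin 8) : (al a c d b = 0 ∧ be a c d b = 0) ∨
    (al a c d b = 50 + a ∧ be a c d b = -(50 + c)) ∨ (al a c d b = 50 + d ∧ be a c d b = -(50 + b)) := by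
  unfold al be
  split_ifs <;> simp

lemma top : ∀ a c d b : Fin 8, 0 ≤ 1994 * al a c d b + 2003 * be a c d b ∧
    1994 * (50 + (a : ℤ)) - 2003 * (50 + (c : ℤ)) ≤ 1994 * al a c d b + 2003 * be a c d b ∧
    1994 * (50 + (d : ℤ)) - 2003 * (50 + (b : ℤ)) ≤ 1994 * al a c d b + 2003 * be a c d b := by
  decide +kernel

lemma sumA4 : ∑ c : Fin 8, ∑ d : Fin 8, ∑ a : Fin 8, ∑ b : Fin 8, al a c d b = 154252 := by
  decide +kernel

lemma sumB4 : ∑ c : Fin 8, ∑ d : Fin 8, ∑ a : Fin 8, ∑ b : Fin 8, be a c d b = -145096 := by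
  decide +kernel

lemma sum8 : ∑ x : Fin 8, (x : ℤ) = 28 := by decide +kernel

lemma sumA : ∑ x : Fin 8, ∑ c : Fin 8, ∑ d : Fin 8, ∑ a : Fin 8, ∑ b : Fin 8, ∑ y : Fin 8,
    (100 + (x : ℤ) + y + al a c d b) = 37921536 := by
  simp only [sum_add_distrib, sum_const, card_univ, Fintype.card_fin, nsmul_eq_mul, ← mul_sum, sum8,
    sumA4]
  norm_num

lemma sumB : ∑ _x : Fin 8, ∑ c : Fin 8, ∑ d : Fin 8, ∑ a : Fin 8, ∑ b : Fin 8, ∑ _y : Fin 8,
    (100 + (c : ℤ) + b + be a c d b) = 18763264 := by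
  simp only [sum_add_distrib, sum_const, card_univ, Fintype.card_fin, nsmul_eq_mul, ← mul_sum, sum8,
    sumB4]
  norm_num

lemma sum3 (g : (Fin 3 → Fin 8) → ℝ) : ∑ x, g x = ∑ a, ∑ b, ∑ c, g ![a, b, c] := by
  let e : (Fin 8 × Fin 8 × Fin 8) ≃ (Fin 3 → Fin 8) :=
    ⟨fun p => ![p.1, p.2.1, p.2.2], fun f => (f 0, f 1, f 2), fun p => rfl,
      fun f => by funext i; fin_cases i <;> rfl⟩
  rw [← e.sum_comp, Fintype.sum_prod_type]
  refine sum_congr rfl fun a _ => ?_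
  rw [Fintype.sum_prod_type]
  rfl

noncomputable def val (k : Fin 8) : ℝ≥0 := 50 + (k : ℕ)

noncomputable def nu : Measure (Fin 8) := (8 : ENNReal)⁻¹ • Measure.count

lemma nu_prob : IsProbabilityMeasure nu := ⟨by simp [nu, ENNReal.inv_mul_cancel]⟩

lemma span_eq (s : Fin 3 → ℝ) (hs : ∀ j, 0 < s j) (X : Fin 2 → Fin 3 → ℝ≥0) :
    span s X = X 0 0 / s 0 + X 1 2 / s 2 + X 0 1 / s 1 + X 1 1 / s 1 +
      max 0 (max (X 1 0 / s 0 - X 0 1 / s 1) (X 0 2 / s 2 - X 1 1 / s 1)) := by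
  have h : ∀ i j, 0 ≤ (X i j : ℝ) / s j := fun i j => div_nonneg (X i j).2 (hs j).le
  have h1 := h 0 0
  have h2 := h 0 1
  have h3 := h 0 2
  have h4 := h 1 0
  have h5 := h 1 1
  simp only [span, comp]
  norm_num
  simp only [Fin.reduceFinMk, max_def]
  split_ifs <;> linarith

lemma exp_eq (s : Fin 3 → ℝ) : expSpan (nu.map val) 2 s =
    (∑ x, ∑ c, ∑ d, ∑ a, ∑ b, ∑ y, span s ![![val x, val c, val d], ![val a, val b, val y]]) / 262144 := by
  have := nu_prob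
  have n1 : ∀ k, nu {k} = 8⁻¹ := fun k => by simp [nu]
  have m1 : MeasurePreserving val nu (nu.map val) := ⟨Measurable.of_discrete, rfl⟩
  have m2 := measurePreserving_pi (fun _ : Fin 3 => nu) (fun _ => nu.map val) fun _ => m1
  have m3 := measurePreserving_pi (fun _ : Fin 2 => Measure.pi fun _ : Fin 3 => nu)
    (fun _ => Measure.pi fun _ : Fin 3 => nu.map val) fun _ => m2
  have hm : Measurable (span s : (Fin 2 → Fin 3 → ℝ≥0) → ℝ) := by
    have : (span s : (Fin 2 → Fin 3 → ℝ≥0) → ℝ) = fun X => span s X := rfl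
    rw [this]
    simp only [span, comp]
    norm_num
    fun_prop
  rw [expSpan, ← m3.map_eq, integral_map m3.measurable.aemeasurable hm.aestronglyMeasurable,
    integral_fintype Integrable.of_finite, ← (finTwoArrowEquiv (Fin 3 → Fin 8)).symm.sum_comp,
    Fintype.sum_prod_type]
  simp only [Measure.real, Measure.pi_singleton, n1, smul_eq_mul, prod_const, card_univ,
    Fintype.card_fin]
  rw [sum3]
  simp only [sum3, sum_div]
  refine sum_congr rfl fun x _ => sum_congr rfl fun c _ => sum_congr rfl fun d _ =>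
    sum_congr rfl fun a _ => sum_congr rfl fun b _ => sum_congr rfl fun y _ => ?_
  have e : (fun i j => val ((finTwoArrowEquiv (Fin 3 → Fin 8)).symm (![x, c, d], ![a, b, y]) i j)) =
      ![![val x, val c, val d], ![val a, val b, val y]] := by
    funext i j
    fin_cases i <;> fin_cases j <;> rfl
  rw [e]
  norm_num
  ring

lemma lin (u v : ℝ) : ∑ x : Fin 8, ∑ c : Fin 8, ∑ d : Fin 8, ∑ a : Fin 8, ∑ b : Fin 8, ∑ y : Fin 8,
    (u * ((100 + (x : ℤ) + y + al a c d b : ℤ) : ℝ) + v * ((100 + (c : ℤ) + b + be a c d b : ℤ) : ℝ))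
    = u * 37921536 + v * 18763264 := by
  have h1 := congrArg (Int.cast : ℤ → ℝ) sumA
  have h2 := congrArg (Int.cast : ℤ → ℝ) sumB
  simp only [Int.cast_sum, Int.cast_ofNat] at h1 h2
  rw [← h1, ← h2]
  simp only [mul_sum, ← sum_add_distrib]

theorem result : ∃ μ : Measure ℝ≥0, IsProbabilityMeasure μ ∧ μ (Set.Icc 50 57)ᶜ = 0 ∧
    ∃ t : Fin 3 → ℝ, Alloc t ∧ ∀ s : Fin 3 → ℝ, Alloc s → Bowl s → expSpan μ 2 t < expSpan μ 2 s := by
  have := nu_prob
  have hv : ∀ k : Fin 8, (val k : ℝ) = 50 + ((k : ℤ) : ℝ) := fun k => by simp [val]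
  refine ⟨nu.map val, Measure.isProbabilityMeasure_map Measurable.of_discrete.aemeasurable, ?_,
    ![2003 / 6000, 997 / 3000, 2003 / 6000], ⟨fun j => by fin_cases j <;> norm_num, by
      simp [Fin.sum_univ_three]; norm_num⟩, fun s hs hb => ?_⟩
  · rw [Measure.map_apply Measurable.of_discrete measurableSet_Icc.compl]
    have : val ⁻¹' (Set.Icc 50 57)ᶜ = ∅ := by
      ext k
      have h1 : ((k : ℕ) : ℝ≥0) ≤ 7 := by exact_mod_cast Nat.lt_succ_iff.1 k.2
      have h2 : val k ≤ 57 := by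
        unfold val
        exact (add_le_add_right h1 50).trans (by norm_num)
      have h3 : 50 ≤ val k := le_self_add
      simp [h2, h3]
    rw [this, measure_empty]
  rw [exp_eq, exp_eq]
  refine div_lt_div_of_pos_right ?_ (by norm_num)
  have e2 : s 2 = s 0 := hb.1 2
  have e1 : s 0 ≤ s 1 := hb.2 0 1 (by decide) (by decide)
  have e3 := hs.2
  rw [Fin.sum_univ_three, e2] at e3
  have p0 := hs.1 0
  have p1 := hs.1 1
  refine lt_of_le_of_lt (b := (6000 / 2003 : ℝ) * 37921536 + 3000 / 997 * 18763264) ?_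
    (lt_of_lt_of_le (b := (1 / s 0) * 37921536 + 1 / s 1 * 18763264) ?_ ?_)
  · rw [← lin]
    refine sum_le_sum fun x _ => sum_le_sum fun c _ => sum_le_sum fun d _ =>
      sum_le_sum fun a _ => sum_le_sum fun b _ => sum_le_sum fun y _ => ?_
    rw [span_eq _ fun j => by fin_cases j <;> norm_num]
    obtain ⟨t1, t2, t3⟩ := top a c d b
    have t1' := (Int.cast_le (R := ℝ)).2 t1
    have t2' := (Int.cast_le (R := ℝ)).2 t2
    have t3' := (Int.cast_le (R := ℝ)).2 t3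
    simp only [Matrix.cons_val, hv]
    push_cast at t1' t2' t3' ⊢
    have : max 0 (max ((50 + ((a : ℕ) : ℝ)) / (2003 / 6000) - (50 + ((c : ℕ) : ℝ)) / (997 / 3000))
        ((50 + ((d : ℕ) : ℝ)) / (2003 / 6000) - (50 + ((b : ℕ) : ℝ)) / (997 / 3000))) ≤
        6000 / 2003 * (al a c d b : ℝ) + 3000 / 997 * (be a c d b : ℝ) :=
      max_le (by linarith) (max_le (by linarith) (by linarith))
    linarith
  · have h1 : 6 - 9 * s 0 ≤ 1 / s 0 := by
      rw [le_div_iff₀ p0]; nlinarith [sq_nonneg (3 * s 0 - 1)]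
    have h2 : 6 - 9 * s 1 ≤ 1 / s 1 := by
      rw [le_div_iff₀ p1]; nlinarith [sq_nonneg (3 * s 1 - 1)]
    linarith
  · rw [← lin]
    refine sum_le_sum fun x _ => sum_le_sum fun c _ => sum_le_sum fun d _ =>
      sum_le_sum fun a _ => sum_le_sum fun b _ => sum_le_sum fun y _ => ?_
    rw [span_eq _ hs.1]
    simp only [Matrix.cons_val, hv, e2, div_eq_mul_inv, one_mul]
    generalize (s 0)⁻¹ = u
    generalize (s 1)⁻¹ = v
    push_cast
    have q1 := le_max_left 0 (max ((50 + ((a : ℕ) : ℝ)) * u - (50 + ((c : ℕ) : ℝ)) * v)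
      ((50 + ((d : ℕ) : ℝ)) * u - (50 + ((b : ℕ) : ℝ)) * v))
    have q2 := le_max_right 0 (max ((50 + ((a : ℕ) : ℝ)) * u - (50 + ((c : ℕ) : ℝ)) * v)
      ((50 + ((d : ℕ) : ℝ)) * u - (50 + ((b : ℕ) : ℝ)) * v))
    have q3 := le_max_left ((50 + ((a : ℕ) : ℝ)) * u - (50 + ((c : ℕ) : ℝ)) * v)
      ((50 + ((d : ℕ) : ℝ)) * u - (50 + ((b : ℕ) : ℝ)) * v)
    have q4 := le_max_right ((50 + ((a : ℕ) : ℝ)) * u - (50 + ((c : ℕ) : ℝ)) * v)
      ((50 + ((d : ℕ) : ℝ)) * u - (50 + ((b : ℕ) : ℝ)) * v)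
    rcases cases3 a c d b with ⟨r1, r2⟩ | ⟨r1, r2⟩ | ⟨r1, r2⟩ <;> rw [r1, r2] <;> push_cast <;> linarith

end Pool.Agent.Results.MP_eb4cdf_pr.NotBowl
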